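import Mathlib

/-!
Rank of a determinant as a function of two blocks of rows, all other rows being constant.
-/

set_option autoImplicit false

namespace Pool.Agent.RD

open Module

variable {K : Type*} [Field K] {ι : Type*} [Fintype ι] [DecidableEq ι]

/-- Rows in `B` are given by `x`, the others by `r`. -/
def glue (B : Finset ι) {X : Type*} (x : B → X) (r : ι → X) : ι → X :=
  fun i => if h : i ∈ B then x ⟨i, h⟩ else r i

omit [Fintype ι] in
theorem glue_update (B : Finset ι) {X : Type*} [DecidableEq B] (x : B → X) (r : ι → X)
    (j : B) (a : X) :
    glue B (Function.update x j a) r = Function.update (glue B x r) j.1 a := by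
  funext i
  unfold glue
  by_cases hi : i ∈ B
  · by_cases hj : i = j.1
    · subst hj
      simp
    · have h1 : (⟨i, hi⟩ : B) ≠ j := fun h => hj (by rw [← h])
      simp [hi, Function.update_of_ne hj, Function.update_of_ne h1]
  · have hj : i ≠ j.1 := fun h => hi (h ▸ j.2)
    simp [hi, Function.update_of_ne hj]

/-- The determinant as an alternating function of the rows in `B`, restricted to a subspace. -/
noncomputable def altB (B : Finset ι) (R : Submodule K (ι → K)) (r : ι → ι → K) :
    R [⋀^B]→ₗ[K] K where
  toFun x := Matrix.detRowAlternating (glue B (fun b => ((x b : R) : ι → K)) r)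
  map_update_add' := by
    intro hdec x j a b
    have e : ∀ c : R, (fun b' => ((Function.update x j c b' : R) : ι → K))
        = Function.update (fun b' => ((x b' : R) : ι → K)) j (c : ι → K) := by
      intro c
      funext b'
      by_cases h : b' = j
      · subst h; simp
      · simp [Function.update_of_ne h]
    rw [e, e, e, glue_update, glue_update, glue_update]
    simp
  map_update_smul' := by
    intro hdec x j c a
    have e : ∀ c : R, (fun b' => ((Function.update x j c b' : R) : ι → K))
        = Function.update (fun b' => ((x b' : R) : ι → K)) j (c : ι → K) := by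
      intro c
      funext b'
      by_cases h : b' = j
      · subst h; simp
      · simp [Function.update_of_ne h]
    rw [e, e, glue_update, glue_update]
    simp
  map_eq_zero_of_eq' := by
    intro x i j hij hne
    have h1 : glue B (fun b => ((x b : R) : ι → K)) r i.1
        = glue B (fun b => ((x b : R) : ι → K)) r j.1 := by
      unfold glue
      simp [hij]
    exact AlternatingMap.map_eq_zero_of_eq _ _ h1 (fun h => hne (Subtype.ext h))

/-- Changing rows outside `W` by elements of the span of the rows in `W` does not change the
determinant. -/
theorem det_eq_of_sub_mem (W : Finset ι) (A A' : ι → ι → K)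
    (hW : ∀ i ∈ W, A i = A' i)
    (h : ∀ i, i ∉ W → A i - A' i ∈ Submodule.span K (A '' (W : Set ι))) :
    Matrix.detRowAlternating A = Matrix.detRowAlternating A' := by
  classical
  -- replace the rows one after another
  have key : ∀ T : Finset ι, Disjoint T W →
      Matrix.detRowAlternating (fun i => if i ∈ T then A' i else A i)
        = Matrix.detRowAlternating A := by
    intro T
    induction T using Finset.induction_on with
    | empty => intro _; simp
    | insert j T hj ih =>
      intro hT
      have hT' : Disjoint T W := Finset.disjoint_of_subset_left (Finset.subset_insert _ _) hT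
      have hjW : j ∉ W := by
        intro hjW
        exact (Finset.disjoint_left.mp hT (Finset.mem_insert_self j T)) hjW
      rw [← ih hT']
      set X : ι → ι → K := fun i => if i ∈ T then A' i else A i with hX
      have hXj : X j = A j := by simp [hX, hj]
      have e1 : (fun i => if i ∈ insert j T then A' i else A i)
          = Function.update X j (A j + (A' j - A j)) := by
        funext i
        by_cases h1 : i = j
        · subst h1; simp
        · simp [Function.update_of_ne h1, h1, hX]
      have e2 : X = Function.update X j (A j) := by
        rw [← hXj, Function.update_eq_self]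
      rw [e1]
      rw [AlternatingMap.map_update_add]
      rw [← e2]
      have hz : Matrix.detRowAlternating (Function.update X j (A' j - A j)) = 0 := by
        have hmem : A' j - A j ∈ Submodule.span K (A '' (W : Set ι)) := by
          have := (Submodule.span K (A '' (W : Set ι))).neg_mem (h j hjW)
          simpa using this
        apply AlternatingMap.map_linearDependent
        intro hli
        -- the row j is in the span of the others
        have hnot := hli.notMem_span_image (s := (W : Set ι)) (x := j) (by simpa using hjW)
        apply hnot
        have himg : Function.update X j (A' j - A j) '' (W : Set ι) = A '' (W : Set ι) := by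
          apply Set.image_congr
          intro i hi
          have hij : i ≠ j := fun h => hjW (h ▸ (by simpa using hi))
          have hiT : i ∉ T := fun hiT => (Finset.disjoint_left.mp hT' hiT) (by simpa using hi)
          simp [Function.update_of_ne hij, hX, hiT]
        rw [himg]
        simpa using hmem
      rw [hz, add_zero]
  have := key (Finset.univ \ W) Finset.sdiff_disjoint
  rw [← this]
  congr 1
  funext i
  by_cases hi : i ∈ W
  · simp [hi, hW i hi]
  · simp [hi]

theorem det_rank (B C : Finset ι) (hBC : Disjoint B C) {U V : Type*}
    (M : U → V → Matrix ι ι K)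
    (hB : ∀ i ∈ B, ∀ u v v', M u v i = M u v' i)
    (hC : ∀ i ∈ C, ∀ u u' v, M u v i = M u' v i)
    (hW : ∀ i, i ∉ B → i ∉ C → ∀ u u' v v', M u v i = M u' v' i) :
    ∃ (f : U → Fin (2 ^ (B.card + C.card)) → K) (g : Fin (2 ^ (B.card + C.card)) → V → K),
      ∀ u v, (M u v).det = ∑ i, f u i * g i v := by
  classical
  by_cases hU : IsEmpty U
  · exact ⟨fun _ _ => 0, fun _ _ => 0, fun u => (hU.false u).elim⟩
  by_cases hV : IsEmpty V
  · exact ⟨fun _ _ => 0, fun _ _ => 0, fun _ v => (hV.false v).elim⟩
  rw [not_isEmpty_iff] at hU hV
  obtain ⟨u₀⟩ := hU
  obtain ⟨v₀⟩ := hV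
  set W : Finset ι := (B ∪ C)ᶜ with hWdef
  have hmW : ∀ i, i ∈ W ↔ i ∉ B ∧ i ∉ C := by
    intro i
    rw [hWdef, Finset.mem_compl, Finset.mem_union, not_or]
  set w : W → (ι → K) := fun i => M u₀ v₀ i.1 with hw
  by_cases hli : LinearIndependent K w
  swap
  · refine ⟨fun _ _ => 0, fun _ _ => 0, fun u v => ?_⟩
    simp only [mul_zero, Finset.sum_const_zero]
    have : ¬ LinearIndependent K (M u v : ι → ι → K) := by
      intro hl
      apply hli
      have h2 := hl.comp (fun i : W => i.1) Subtype.val_injective
      have h3 : (M u v : ι → ι → K) ∘ (fun i : W => i.1) = w := by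
        funext i
        have hi := (hmW _).1 i.2
        exact hW i.1 hi.1 hi.2 u u₀ v v₀
      rwa [h3] at h2
    exact AlternatingMap.map_linearDependent Matrix.detRowAlternating _ this
  -- main case
  set S : Submodule K (ι → K) := Submodule.span K (Set.range w) with hS
  obtain ⟨R, hR⟩ := Submodule.exists_isCompl S
  have hcard : B.card + C.card + W.card = Fintype.card ι := by
    rw [hWdef, Finset.card_compl, Finset.card_union_of_disjoint hBC]
    have : B.card + C.card ≤ Fintype.card ι := by
      rw [← Finset.card_union_of_disjoint hBC]
      exact Finset.card_le_univ _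
    omega
  have hfS : finrank K S = W.card := by
    rw [hS, finrank_span_eq_card hli]
    simp
  have hfR : finrank K R = B.card + C.card := by
    have h1 := Submodule.finrank_add_eq_of_isCompl hR
    rw [hfS, finrank_fintype_fun_eq_card] at h1
    omega
  set P : (ι → K) →ₗ[K] R := R.projectionOnto S hR.symm with hP
  have hPsub : ∀ x : ι → K, x - ((P x : R) : ι → K) ∈ S := by
    intro x
    have : P (x - ((P x : R) : ι → K)) = 0 := by
      rw [map_sub]
      have : P ((P x : R) : ι → K) = P x := by
        rw [hP]
        exact Submodule.projectionOnto_apply_left hR.symm _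
      rw [this, sub_self]
    rw [hP] at this
    exact (Submodule.projectionOnto_apply_eq_zero_iff hR.symm).1 this
  -- rows outside B for given v
  set r : V → ι → ι → K := fun v i => M u₀ v i with hr
  -- determinant = alternating function of the projected rows
  have hdet : ∀ u v, (M u v).det
      = altB B R (r v) (fun b : B => P (M u v₀ b.1)) := by
    intro u v
    change Matrix.detRowAlternating (M u v : ι → ι → K)
      = Matrix.detRowAlternating (glue B (fun b : B => ((P (M u v₀ b.1) : R) : ι → K)) (r v))
    apply det_eq_of_sub_mem W
    · intro i hi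
      rw [hWdef, Finset.mem_compl, Finset.mem_union, not_or] at hi
      unfold glue
      rw [dif_neg hi.1, hr]
      exact hW i hi.1 hi.2 u u₀ v v
    · intro i hi
      rw [hWdef, Finset.mem_compl, not_not, Finset.mem_union] at hi
      have hspan : Submodule.span K ((M u v : ι → ι → K) '' (W : Set ι)) = S := by
        rw [hS]
        congr 1
        ext x
        constructor
        · rintro ⟨j, hj, rfl⟩
          refine ⟨⟨j, by simpa using hj⟩, ?_⟩
          have hj' := (hmW j).1 (by simpa using hj)
          exact hW j hj'.1 hj'.2 u₀ u v₀ v
        · rintro ⟨j, rfl⟩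
          refine ⟨j.1, by simpa using j.2, ?_⟩
          have hj' := (hmW _).1 j.2
          exact hW j.1 hj'.1 hj'.2 u u₀ v v₀
      rw [hspan]
      by_cases hiB : i ∈ B
      · unfold glue
        rw [dif_pos hiB]
        have : M u v i = M u v₀ i := hB i hiB u v v₀
        rw [this]
        exact hPsub _
      · have hiC : i ∈ C := by tauto
        unfold glue
        rw [dif_neg hiB, hr]
        have : M u v i = M u₀ v i := hC i hiC u u₀ v
        simp only [this, sub_self]
        exact Submodule.zero_mem _
  -- pass to the exterior power
  set e : B ≃ Fin B.card := B.equivFin with he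
  set Λ := ⋀[K]^(B.card) R with hΛ
  set β := Module.finBasis K Λ with hβ
  have hdimΛ : finrank K Λ ≤ 2 ^ (B.card + C.card) := by
    rw [hΛ, exteriorPower.finrank_eq, hfR]
    exact Nat.choose_le_two_pow _ _
  set φ : V → (Λ →ₗ[K] K) := fun v =>
    exteriorPower.alternatingMapLinearEquiv ((altB B R (r v)).domDomCongr e) with hφ
  set x : U → Λ := fun u => exteriorPower.ιMulti K B.card (fun j => P (M u v₀ (e.symm j).1)) with hx
  have hval : ∀ u v, (M u v).det = φ v (x u) := by
    intro u v
    rw [hdet u v, hφ, hx]
    simp only
    rw [exteriorPower.alternatingMapLinearEquiv_apply_ιMulti]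
    rw [AlternatingMap.domDomCongr_apply]
    congr 1
    funext b
    simp
  refine ⟨fun u i => if h : i.1 < finrank K Λ then β.repr (x u) ⟨i.1, h⟩ else 0,
    fun i v => if h : i.1 < finrank K Λ then φ v (β ⟨i.1, h⟩) else 0, fun u v => ?_⟩
  rw [hval u v]
  have h1 : φ v (x u) = ∑ j : Fin (finrank K Λ), β.repr (x u) j * φ v (β j) := by
    conv_lhs => rw [← β.sum_repr (x u)]
    rw [map_sum]
    apply Finset.sum_congr rfl
    intro j _
    rw [map_smul, smul_eq_mul]
  rw [h1]
  symm
  -- the sum over Fin (2 ^ _) of a function vanishing above finrank
  rw [← Finset.sum_subset (Finset.subset_univ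
    ((Finset.univ : Finset (Fin (finrank K Λ))).map (Fin.castLEEmb hdimΛ)))]
  · rw [Finset.sum_map]
    apply Finset.sum_congr rfl
    intro j _
    have hj : ((Fin.castLEEmb hdimΛ) j).1 < finrank K Λ := by simp
    simp only [dif_pos hj]
    rfl
  · intro i _ hi
    have : ¬ i.1 < finrank K Λ := by
      intro h
      apply hi
      rw [Finset.mem_map]
      exact ⟨⟨i.1, h⟩, Finset.mem_univ _, by ext; simp⟩
    simp [this]

end Pool.Agent.RD
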