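import Mathlib

/-!
The disjointness matrix of the `m`-subsets of a set with at least `2 m` elements is invertible in
characteristic zero (kernel form).
-/

set_option autoImplicit false

namespace Pool.Agent.RD

open Finset

variable {K : Type*} [Field K] [CharZero K] {α : Type*} [Fintype α] [DecidableEq α]

/-- If the sums of `Φ` over the `m`-sets disjoint from `T` vanish for all `T` with `m` elements,
then they vanish for all `T` with at most `m` elements. -/
theorem disj_down (m : ℕ) (h2 : 2 * m ≤ Fintype.card α) (Φ : Finset α → K)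
    (h : ∀ T : Finset α, T.card = m → ∑ J ∈ powersetCard m univ with Disjoint J T, Φ J = 0) :
    ∀ k, k ≤ m → ∀ T : Finset α, T.card = k →
      ∑ J ∈ powersetCard m univ with Disjoint J T, Φ J = 0 := by
  intro k hk
  induction hk using Nat.decreasingInduction with
  | self => exact h
  | of_succ k hk ih =>
    intro T hT
    -- sum over x outside T
    have h1 : ∑ x ∈ Tᶜ, ∑ J ∈ powersetCard m univ with Disjoint J (insert x T), Φ J = 0 := by
      apply Finset.sum_eq_zero
      intro x hx
      apply ih
      rw [card_insert_of_notMem (by simpa using hx), hT]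
    have h2' : ∑ x ∈ Tᶜ, ∑ J ∈ powersetCard m univ with Disjoint J (insert x T), Φ J
        = ∑ J ∈ powersetCard m univ with Disjoint J T,
            ((Fintype.card α - T.card - m : ℕ) : K) * Φ J := by
      simp only [Finset.sum_filter]
      rw [Finset.sum_comm]
      apply Finset.sum_congr rfl
      intro J hJ
      rw [mem_powersetCard_univ] at hJ
      by_cases hd : Disjoint J T
      · rw [if_pos hd]
        have : ∀ x, (if Disjoint J (insert x T) then Φ J else 0)
            = if x ∉ J then Φ J else 0 := by
          intro x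
          apply if_congr _ rfl rfl
          rw [disjoint_insert_right]
          exact ⟨fun h => h.1, fun h => ⟨h, hd⟩⟩
        simp_rw [this]
        rw [← Finset.sum_filter, Finset.sum_const, nsmul_eq_mul]
        congr 2
        have h3 : (Tᶜ.filter fun x => x ∉ J) = (T ∪ J)ᶜ := by
          ext x
          simp
        rw [h3, card_compl, card_union_of_disjoint hd.symm, hJ]
        omega
      · rw [if_neg hd]
        apply Finset.sum_eq_zero
        intro x _
        rw [if_neg]
        intro h4
        rw [disjoint_insert_right] at h4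
        exact hd h4.2
    rw [h1, ← Finset.mul_sum] at h2'
    have hne : ((Fintype.card α - T.card - m : ℕ) : K) ≠ 0 := by
      rw [Nat.cast_ne_zero]
      omega
    exact (mul_eq_zero.1 h2'.symm).resolve_left hne

/-- The disjointness matrix has trivial kernel. -/
theorem disj_ker (m : ℕ) (h2 : 2 * m ≤ Fintype.card α) (Φ : Finset α → K)
    (h : ∀ T : Finset α, T.card = m → ∑ J ∈ powersetCard m univ with Disjoint J T, Φ J = 0) :
    ∀ J : Finset α, J.card = m → Φ J = 0 := by
  have hall := disj_down m h2 Φ h
  intro J₀ hJ₀
  -- inclusion-exclusion over T ⊆ J₀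
  have h1 : ∑ T ∈ J₀.powerset, (-1 : K) ^ T.card *
      ∑ J ∈ powersetCard m univ with Disjoint J T, Φ J = 0 := by
    apply Finset.sum_eq_zero
    intro T hT
    rw [mem_powerset] at hT
    rw [hall T.card (by rw [← hJ₀]; exact card_le_card hT) T rfl, mul_zero]
  have h3 : ∑ T ∈ J₀.powerset, (-1 : K) ^ T.card *
      ∑ J ∈ powersetCard m univ with Disjoint J T, Φ J
      = ∑ J ∈ powersetCard m (univ : Finset α),
          Φ J * ∑ T ∈ (J₀ \ J).powerset, (-1 : K) ^ T.card := by
    simp only [Finset.mul_sum, Finset.sum_filter]
    rw [Finset.sum_comm]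
    apply Finset.sum_congr rfl
    intro J _
    have h4 : (J₀ \ J).powerset = J₀.powerset.filter (fun T => Disjoint J T) := by
      ext T
      simp only [mem_powerset, mem_filter]
      rw [subset_sdiff, disjoint_comm]
    rw [h4, Finset.sum_filter]
    apply Finset.sum_congr rfl
    intro T _
    split_ifs <;> ring
  rw [h3] at h1
  have h5 : ∀ J ∈ powersetCard m (univ : Finset α),
      Φ J * ∑ T ∈ (J₀ \ J).powerset, (-1 : K) ^ T.card = if J = J₀ then Φ J₀ else 0 := by
    intro J hJ
    rw [mem_powersetCard_univ] at hJ
    have h6 : ∑ T ∈ (J₀ \ J).powerset, (-1 : K) ^ T.card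
        = if J₀ \ J = ∅ then 1 else 0 := by
      have := Finset.sum_powerset_neg_one_pow_card (x := J₀ \ J)
      have h7 : ((∑ T ∈ (J₀ \ J).powerset, (-1 : ℤ) ^ T.card : ℤ) : K)
          = ((if J₀ \ J = ∅ then 1 else 0 : ℤ) : K) := by rw [this]
      push_cast at h7
      simpa using h7
    rw [h6]
    by_cases hJJ : J = J₀
    · subst hJJ; simp
    · rw [if_neg hJJ, if_neg, mul_zero]
      intro h8
      rw [sdiff_eq_empty_iff_subset] at h8
      exact hJJ (eq_of_subset_of_card_le h8 (by rw [hJ, hJ₀])).symm
  rw [Finset.sum_congr rfl h5, Finset.sum_ite_eq'] at h1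
  rwa [if_pos (by rw [mem_powersetCard_univ]; exact hJ₀)] at h1

end Pool.Agent.RD
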